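import Mathlib

set_option autoImplicit false
set_option maxHeartbeats 400000

namespace Pool.Agent.Results.MP_4a1002_ag.NoOpenOrbit

open CategoryTheory AlgebraicGeometry

variable {K : Type} [Field K]

/-- parametrisation of the group -/
def mm (a b c d e : K) : Matrix (Fin 4) (Fin 4) K :=
  !![1, a, c, e; 0, 1, a, d; 0, 0, 1, b; 0, 0, 0, 1]

lemma mm_mul (a b c d e a' b' c' d' e' : K) : mm a b c d e * mm a' b' c' d' e' =
    mm (a + a') (b + b') (c + c' + a * a') (d + d' + a * b') (e + e' + a * d' + c * b') := by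
  ext i j
  fin_cases i <;> fin_cases j <;> simp [mm, Matrix.mul_apply, Fin.sum_univ_four] <;> ring

lemma mm_one : mm (0 : K) 0 0 0 0 = 1 := by
  ext i j
  fin_cases i <;> fin_cases j <;> simp [mm]

lemma mm_inj {a b c d e a' b' c' d' e' : K} (h : mm a b c d e = mm a' b' c' d' e') :
    a = a' ∧ b = b' ∧ c = c' ∧ d = d' ∧ e = e' :=
  ⟨congrFun (congrFun h 0) 1, congrFun (congrFun h 2) 3, congrFun (congrFun h 0) 2,
    congrFun (congrFun h 1) 3, congrFun (congrFun h 0) 3⟩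

lemma mm_inv (a b c d e : K) : mm a b c d e *
    mm (-a) (-b) (a * a - c) (a * b - d) (a * d + c * b - a * a * b - e) = 1 := by
  rw [mm_mul, ← mm_one]
  congr 1 <;> ring

/-- as an invertible matrix -/
def uu (a b c d e : K) : GL (Fin 4) K :=
  ⟨mm a b c d e, _, mm_inv a b c d e, mul_eq_one_comm.1 (mm_inv a b c d e)⟩

/-- the groups -/
def gg (P : AddSubgroup K) : Subgroup (GL (Fin 4) K) where
  carrier := {g | ∃ a ∈ P, ∃ b ∈ P, ∃ c d e, g.val = mm a b c d e}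
  mul_mem' := by
    rintro g h ⟨a, ha, b, hb, c, d, e, h1⟩ ⟨a', ha', b', hb', c', d', e', h2⟩
    exact ⟨_, P.add_mem ha ha', _, P.add_mem hb hb', _, _, _, by
      rw [Units.val_mul, h1, h2, mm_mul]⟩
  one_mem' := ⟨0, P.zero_mem, 0, P.zero_mem, 0, 0, 0, mm_one.symm⟩
  inv_mem' := by
    rintro g ⟨a, ha, b, hb, c, d, e, h1⟩
    exact ⟨_, P.neg_mem ha, _, P.neg_mem hb, _, _, _,
      Units.inv_eq_of_mul_eq_one_right (h1 ▸ mm_inv a b c d e)⟩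

lemma comm (g : GL (Fin 4) K) (hg : g ∈ gg ⊥) (h : GL (Fin 4) K) (hh : h ∈ gg ⊥) :
    g * h = h * g := by
  obtain ⟨a, ha, b, hb, c, d, e, h1⟩ := hg
  obtain ⟨a', ha', b', hb', c', d', e', h2⟩ := hh
  rw [AddSubgroup.mem_bot] at *
  subst ha hb ha' hb'
  ext1
  rw [Units.val_mul, Units.val_mul, h1, h2, mm_mul, mm_mul]
  congr 1 <;> ring

lemma key (a b : K) (h h' : GL (Fin 4) K) (h1 : h ∈ gg ⊥) (h2 : h' ∈ gg ⊥) :
    ∃ c d e, h'⁻¹ * uu a b 0 0 0 * h = uu a b c d e := by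
  obtain ⟨a1, ha, b1, hb, c, d, e, h3⟩ := h1
  obtain ⟨a', ha', b', hb', c', d', e', h4⟩ := (gg ⊥).inv_mem h2
  rw [AddSubgroup.mem_bot] at *
  subst ha hb ha' hb'
  exact ⟨_, _, _, Units.ext (by
    rw [Units.val_mul, Units.val_mul, h3, h4]
    simp only [uu, mm_mul, zero_add, add_zero]
    rfl)⟩

theorem result (K : Type) [Field K] [IsAlgClosed K] :
    ∃ G H : Subgroup (GL (Fin 4) K),
      (∃ A : AffineSubspace K (Matrix (Fin 4) (Fin 4) K), 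
        ∀ M, M ∈ A ↔ ∃ g ∈ G, g.val = M) ∧
      H ≤ G ∧ (∀ h ∈ H, IsNilpotent (h.val - 1)) ∧ (∀ a ∈ H, ∀ b ∈ H, a * b = b * a) ∧
      (∀ H' : Subgroup (GL (Fin 4) K), H ≤ H' → H' ≤ G → (∀ a ∈ H', ∀ b ∈ H', a * b = b * a) →
        H' = H) ∧
      ∀ (X : Scheme.{0}) (f : X ⟶ Spec (.of K)) [IsIntegral X] [IsSeparated f]
        [LocallyOfFiniteType f] (ρ : G → (X ⟶ X)), (∀ g, ρ g ≫ f = f) → ρ 1 = 𝟙 X →
        (∀ g h, ρ (g * h) = ρ h ≫ ρ g) → (∀ g, ρ g = 𝟙 X → g = 1) →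
        ∀ (x : X) (U : Set X), IsOpen U →
          {y | ∃ h : G, h.1 ∈ H ∧ ρ h x = y} ≠ U ∩ closedPoints X := by
  have hle : gg (⊥ : AddSubgroup K) ≤ gg ⊤ := fun g ⟨a, _, b, _, h⟩ => ⟨a, trivial, b, trivial, h⟩
  have hu : ∀ a b c d e : K, uu a b c d e ∈ gg ⊤ := fun a b c d e =>
    ⟨a, trivial, b, trivial, c, d, e, rfl⟩
  refine ⟨gg ⊤, gg ⊥, ⟨⟨{M | ∃ a b c d e, M = mm a b c d e}, ?_⟩, ?_⟩, hle, ?_, comm, ?_, ?_⟩
  · rintro t _ _ _ ⟨a, b, c, d, e, rfl⟩ ⟨a', b', c', d', e', rfl⟩ ⟨a'', b'', c'', d'', e'', rfl⟩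
    refine ⟨t * (a - a') + a'', t * (b - b') + b'', t * (c - c') + c'', t * (d - d') + d'',
      t * (e - e') + e'', ?_⟩
    ext i j
    fin_cases i <;> fin_cases j <;> simp [mm]
  · intro M
    exact ⟨fun ⟨a, b, c, d, e, h⟩ => ⟨_, hu a b c d e, h.symm⟩,
      fun ⟨g, ⟨a, _, b, _, c, d, e, h⟩, h'⟩ => ⟨a, b, c, d, e, h'.symm.trans h⟩⟩
  · rintro g ⟨a, ha, b, hb, c, d, e, h⟩
    rw [AddSubgroup.mem_bot] at *
    subst ha hb
    refine ⟨2, ?_⟩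
    rw [h, pow_two]
    ext i j
    fin_cases i <;> fin_cases j <;> simp [mm, Matrix.mul_apply, Fin.sum_univ_four]
  · intro H' h1 h2 h3
    refine le_antisymm (fun g hg => ?_) h1
    obtain ⟨a, -, b, -, c, d, e, h⟩ := h2 hg
    have h4 := congrArg Units.val (h3 g hg _ (h1 (⟨0, rfl, 0, rfl, 1, 0, 0, rfl⟩ :
      uu (0 : K) 0 1 0 0 ∈ gg ⊥)))
    have h5 := congrArg Units.val (h3 g hg _ (h1 (⟨0, rfl, 0, rfl, 0, 1, 0, rfl⟩ :
      uu (0 : K) 0 0 1 0 ∈ gg ⊥)))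
    simp only [Units.val_mul, h, uu, mm_mul] at h4 h5
    exact ⟨a, by simpa using (mm_inj h5).2.2.2.2, b, by simpa using (mm_inj h4).2.2.2.2, c, d, e, h⟩
  · intro X f _ _ _ ρ h1 h2 h3 h4 x U hU h5
    have : JacobsonSpace X := LocallyOfFiniteType.jacobsonSpace f
    have h6 : ∀ g h y, ρ (g * h) y = ρ g (ρ h y) := fun g h y => by simp [h3]
    have h7 : ∀ y, ρ 1 y = y := fun y => by simp [h2]
    have h8 : x ∈ U ∩ closedPoints X := h5 ▸ ⟨1, (gg ⊥).one_mem, h7 x⟩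
    have h9 : ∀ a b : K, ∃ c d e, ρ ⟨uu a b c d e, hu _ _ _ _ _⟩ x = x := by
      intro a b
      obtain ⟨g, hg⟩ : ∃ g : gg ⊤, g = ⟨uu a b 0 0 0, hu _ _ _ _ _⟩ := ⟨_, rfl⟩
      have h9 : IsOpen (ρ g ⁻¹' U) := hU.preimage (ρ g).continuous
      obtain ⟨y, ⟨h10, h11⟩, h12⟩ := nonempty_inter_closedPoints
        (nonempty_preirreducible_inter hU h9 ⟨x, h8.1⟩ ⟨ρ g⁻¹ x, by
          show ρ g _ ∈ U
          rw [← h6, mul_inv_cancel, h7]
          exact h8.1⟩) (hU.inter h9).isLocallyClosed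
      have h13 : ρ g y ∈ closedPoints X := by
        have : {ρ g y} = ρ g⁻¹ ⁻¹' {y} := by
          ext z
          constructor
          · rintro rfl
            show ρ g⁻¹ _ = y
            rw [← h6, inv_mul_cancel, h7]
          · rintro (rfl : ρ g⁻¹ z = y)
            show z = _
            rw [← h6, mul_inv_cancel, h7]
        show IsClosed _
        rw [this]
        exact IsClosed.preimage (ρ g⁻¹).continuous h12
      obtain ⟨h, h14, rfl⟩ : y ∈ {y | ∃ h : gg ⊤, h.1 ∈ gg ⊥ ∧ ρ h x = y} := h5 ▸ ⟨h10, h12⟩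
      obtain ⟨h', h15, h16⟩ : ρ g (ρ h x) ∈ {y | ∃ h : gg ⊤, h.1 ∈ gg ⊥ ∧ ρ h x = y} :=
        h5 ▸ ⟨h11, h13⟩
      obtain ⟨c, d, e, h17⟩ := key a b h.1 h'.1 h14 h15
      refine ⟨c, d, e, ?_⟩
      rw [show (⟨uu a b c d e, hu _ _ _ _ _⟩ : gg ⊤) = h'⁻¹ * g * h from
        Subtype.ext (by rw [hg]; exact h17.symm), h6, h6, ← h16, ← h6, inv_mul_cancel, h7]
    obtain ⟨c, d, e, h10⟩ := h9 1 0
    obtain ⟨c', d', e', h11⟩ := h9 0 1
    obtain ⟨s, hs⟩ : ∃ s : gg ⊤, s = ⟨uu 1 0 c d e, hu _ _ _ _ _⟩ := ⟨_, rfl⟩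
    obtain ⟨t, ht⟩ : ∃ t : gg ⊤, t = ⟨uu 0 1 c' d' e', hu _ _ _ _ _⟩ := ⟨_, rfl⟩
    rw [← hs] at h10
    rw [← ht] at h11
    have h12 : ρ ((t * s)⁻¹ * (s * t)) x = x := by
      have : ρ (s * t) x = ρ (t * s) x := by rw [h6, h6, h10, h11, h10]
      rw [h6, this, ← h6, inv_mul_cancel, h7]
    obtain ⟨e'', h13⟩ : ∃ e'' : K, ((t * s)⁻¹ * (s * t)).1 = uu 0 0 0 1 e'' := by
      refine ⟨d' + c - 1, ?_⟩
      rw [Subgroup.coe_mul, Subgroup.coe_inv, inv_mul_eq_iff_eq_mul, hs, ht]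
      ext1
      simp only [Subgroup.coe_mul, Units.val_mul, uu, mm_mul]
      congr 1 <;> ring
    generalize (t * s)⁻¹ * (s * t) = z at h12 h13
    have h14 : z.1 ∈ gg ⊥ := h13 ▸ ⟨0, rfl, 0, rfl, _, _, _, rfl⟩
    have : LocallyOfFiniteType (ρ z ≫ f) := by rw [h1]; infer_instance
    have h15 := h4 z (ext_of_apply_eq f (f := ρ z) (g := 𝟙 X) U
      hU.isLocallyClosed (hU.dense ⟨x, h8.1⟩) (fun y h15 h16 => by
        obtain ⟨h, h17, rfl⟩ : y ∈ {y | ∃ h : gg ⊤, h.1 ∈ gg ⊥ ∧ ρ h x = y} := h5 ▸ ⟨h15, h16⟩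
        rw [← h6, show z * h = h * z from Subtype.ext (comm _ h14 _ h17), h6, h12]
        simp) (by simp [h1]))
    rw [h15] at h13
    exact zero_ne_one (mm_inj (mm_one.trans (congrArg Units.val h13))).2.2.2.1

end Pool.Agent.Results.MP_4a1002_ag.NoOpenOrbit
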